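import Mathlib

set_option autoImplicit false

namespace Pool.Agent.Results.MP_5a9afa_al.Yes

/-- `a` has unit stable range one -/
def USR {R : Type} [Ring R] (a : R) : Prop :=
  ∀ b : R, (∃ r s : R, r * a + s * b = 1) → ∃ u : R, IsUnit u ∧ IsUnit (a + u * b)

/-- the second formulation in the problem file -/
def USR' {R : Type} [Ring R] (a : R) : Prop :=
  ∀ x : R, ∃ u : R, IsUnit u ∧ IsUnit ((u + x) * a - 1)

lemma imp {R : Type} [Ring R] {a : R} (h : USR a) : USR' a := fun x => by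
  obtain ⟨_, ⟨u, rfl⟩, h⟩ := h (x * a - 1) ⟨x, -1, by simp⟩
  exact ⟨↑u⁻¹, Units.isUnit _, by
    simpa [mul_add, add_mul, add_sub_assoc] using (Units.isUnit u⁻¹).mul h⟩

/-- integer matrices whose lower left entry is divisible by 3 -/
def R : Subring (Matrix (Fin 2) (Fin 2) ℤ) where
  carrier := {M | 3 ∣ M 1 0}
  mul_mem' := fun {a b} h k => by
    simpa [Matrix.mul_apply] using dvd_add (Dvd.dvd.mul_right h _) (Dvd.dvd.mul_left k _)
  one_mem' := by simp
  add_mem' := fun h k => dvd_add h k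
  zero_mem' := by simp
  neg_mem' := fun h => (dvd_neg).2 h

lemma unit (M : R) : IsUnit M ↔ M.1.det = 1 ∨ M.1.det = -1 := by
  rw [← Int.isUnit_iff]
  refine ⟨fun h => (Matrix.isUnit_iff_isUnit_det _).1 (h.map R.subtype), fun h => ?_⟩
  have e := Int.isUnit_mul_self h
  refine ⟨⟨M, ⟨M.1.det • M.1.adjugate, ?_⟩, Subtype.ext ?_, Subtype.ext ?_⟩, rfl⟩
  · simpa [R, Matrix.adjugate_fin_two] using Dvd.dvd.mul_left M.2 _
  · show M.1 * _ = 1
    rw [Matrix.mul_smul, Matrix.mul_adjugate, smul_smul, e, one_smul]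
  · show _ * M.1 = 1
    rw [Matrix.smul_mul, Matrix.adjugate_mul, smul_smul, e, one_smul]

def a : R := ⟨!![1, 0; 0, 0], by simp [R]⟩
def U : R := ⟨!![4, 1; 3, 1], by simp [R]⟩

lemma ha : USR a := by
  rintro c ⟨r, s, h⟩
  have h1 : s.1 1 0 * c.1 0 1 + s.1 1 1 * c.1 1 1 = 1 := by
    simpa [a, Matrix.mul_apply] using congrArg (fun M : R => M.1 1 1) h
  obtain ⟨m, q, h2, h3⟩ : ∃ m q : ℤ, m * m - 3 * q = 1 ∧
      (m + c.1.det = 1 ∨ m + c.1.det = -1) := by
    have : ∀ m : ℤ, m % 3 ≠ 0 → ∃ q, m * m - 3 * q = 1 := fun m h =>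
      ⟨m * m / 3, by
        have : m % 3 = 1 ∨ m % 3 = 2 := by omega
        have : m * m % 3 = 1 := by rcases this with h | h <;> simp [Int.mul_emod, h]
        omega⟩
    by_cases e : (1 - c.1.det) % 3 = 0
    · exact (this (-1 - c.1.det) (by omega)).elim fun q h => ⟨_, q, h, .inr (by ring)⟩
    · exact (this _ e).elim fun q h => ⟨_, q, h, .inl (by ring)⟩
  refine ⟨⟨!![m, q; 3, m], by simp [R]⟩ * ⟨!![c.1 1 1, -c.1 0 1; s.1 1 0, s.1 1 1], s.2⟩,
    IsUnit.mul ((unit _).2 (.inl ?_)) ((unit _).2 (.inl ?_)), (unit _).2 ?_⟩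
  · simp [Matrix.det_fin_two]; linarith
  · simp [Matrix.det_fin_two]; linarith
  · convert h3 using 2 <;> simp [a, Matrix.det_fin_two, Matrix.mul_apply, Matrix.vecMul, dotProduct,
      Matrix.vecHead, Matrix.vecTail] <;>
      linear_combination (m + (m * m - 3 * q) * (c.1 0 0 * c.1 1 1 - c.1 0 1 * c.1 1 0)) * h1 +
        (c.1 0 0 * c.1 1 1 - c.1 0 1 * c.1 1 0) * h2

theorem result : ∃ (R : Type) (_ : Ring R) (a b : R),
    USR a ∧ USR b ∧ ¬ USR (a * b) ∧ USR' a ∧ USR' b ∧ ¬ USR' (a * b) := by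
  have hU : IsUnit U := (unit _).2 (.inl (by simp [U, Matrix.det_fin_two]))
  have hb : USR (U * a) := by
    rintro c ⟨r, s, h⟩
    obtain ⟨u, h1, h2⟩ := ha c ⟨r * U, s, by rwa [mul_assoc]⟩
    exact ⟨U * u, hU.mul h1, by simpa [mul_add, mul_assoc] using hU.mul h2⟩
  have hc : ¬ USR' (a * (U * a)) := fun h => by
    obtain ⟨u, h1, h2⟩ := h 0
    rw [unit] at h1 h2
    obtain ⟨k, hk⟩ : 3 ∣ u.1 1 0 := u.2
    simp [a, U, Matrix.det_fin_two, Matrix.mul_apply] at h1 h2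
    have : u.1 0 0 = 0 := by omega
    rw [this, hk, mul_left_comm] at h1
    omega
  exact ⟨R, _, a, U * a, ha, hb, fun h => hc (imp h), imp ha, imp hb, hc⟩

end Pool.Agent.Results.MP_5a9afa_al.Yes
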